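import Pool.Agent.W978.QN.Stm

/-! Project QN (owner helper978), part QN-PT: a point of the open set. -/

set_option autoImplicit false

namespace Pool.Agent.W240.QN.PT

open Finset Pool.Agent.W978.QN Function

section Ring
variable {R : Type*} [CommRing R] (a : (Fin 3 → Fin 3) → ℤ)

theorem mt_apply (k l : Fin 3) (P : Fin 3 → Fin 3 → R) (x y : Fin 3) :
    Pool.Agent.W978.QN.mt a k l P x y = tf a (update (update P k (bv x)) l (bv y)) := rfl

theorem bv_eq (x : Fin 3) (v : Fin 3 → R) :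
    v x = v 0 * bv 0 x + v 1 * bv 1 x + v 2 * bv 2 x := by
  fin_cases x <;> simp [bv]

theorem tf_update (i : Fin 3) (P : Fin 3 → Fin 3 → R) (v : Fin 3 → R) :
    tf a (update P i v) =
      ∑ e : Fin 3 → Fin 3, (a e : R) * (v (e i) * ∏ m ∈ univ.erase i, P m (e m)) := by
  unfold tf
  refine sum_congr rfl fun e _ => ?_
  congr 1
  rw [← Finset.mul_prod_erase univ _ (mem_univ i), update_self]
  congr 1
  refine prod_congr rfl fun m hm => ?_
  rw [update_of_ne (ne_of_mem_erase hm)]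

theorem lin (i : Fin 3) (P : Fin 3 → Fin 3 → R) (v : Fin 3 → R) :
    tf a (update P i v) = v 0 * tf a (update P i (bv 0)) + v 1 * tf a (update P i (bv 1))
      + v 2 * tf a (update P i (bv 2)) := by
  rw [tf_update, tf_update, tf_update, tf_update, mul_sum, mul_sum, mul_sum, ← sum_add_distrib,
    ← sum_add_distrib]
  refine sum_congr rfl fun e _ => ?_
  rw [bv_eq (e i) v]
  ring

/-- independence of the arguments `k`, `l` -/
theorem mt_ind {k l m : Fin 3} (hm : m = k ∨ m = l) (P : Fin 3 → Fin 3 → R) (v : Fin 3 → R) :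
    mt a k l (update P m v) = mt a k l P := by
  ext x y
  simp only [mt_apply]
  congr 1
  funext t
  by_cases h1 : t = l
  · subst h1; simp
  · by_cases h2 : t = k
    · subst h2; simp [update_of_ne h1]
    · have h3 : t ≠ m := by rcases hm with rfl | rfl <;> assumption
      simp [update_of_ne h1, update_of_ne h2, update_of_ne h3]

theorem mt_symm {k l : Fin 3} (h : k ≠ l) (P : Fin 3 → Fin 3 → R) :
    (mt a l k P).det = (mt a k l P).det := by
  rw [← Matrix.det_transpose]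
  congr 1
  ext x y
  simp only [Matrix.transpose_apply, mt_apply]
  rw [update_comm h]

/-- the coefficients of the linear form in the argument `0` -/
def w (P : Fin 3 → Fin 3 → R) (i : Fin 3) : R := tf a (update P 0 (bv i))

/-- cross product -/
def cr (x y : Fin 3 → R) : Fin 3 → R :=
  fun i => if i = 0 then x 1 * y 2 - x 2 * y 1 else if i = 1 then x 2 * y 0 - x 0 * y 2
    else x 0 * y 1 - x 1 * y 0

theorem cr0 (x y : Fin 3 → R) : cr x y 0 = x 1 * y 2 - x 2 * y 1 := by simp [cr]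
theorem cr1 (x y : Fin 3 → R) : cr x y 1 = x 2 * y 0 - x 0 * y 2 := by simp [cr]
theorem cr2 (x y : Fin 3 → R) : cr x y 2 = x 0 * y 1 - x 1 * y 0 := by simp [cr]

/-- the solution -/
def sol (P : Fin 3 → Fin 3 → R) : Fin 3 → Fin 3 → R := update P 0 (cr (w a P) (P 0))

theorem sol_zero (P : Fin 3 → Fin 3 → R) : tf a (sol a P) = 0 := by
  unfold sol
  rw [lin, cr0, cr1, cr2]
  simp only [w]
  ring

end Ring

section Nat
variable {R S : Type*} [CommRing R] [CommRing S] (φ : R →+* S) (a : (Fin 3 → Fin 3) → ℤ)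

/-- the image of the arguments -/
def mm (P : Fin 3 → Fin 3 → R) : Fin 3 → Fin 3 → S := fun i u => φ (P i u)

theorem mm_update (P : Fin 3 → Fin 3 → R) (k : Fin 3) (v : Fin 3 → R) :
    mm φ (update P k v) = update (mm φ P) k (fun u => φ (v u)) := by
  funext i u
  by_cases h : i = k
  · subst h; simp [mm]
  · simp [mm, update_of_ne h]

theorem mm_bv (j : Fin 3) : (fun u => φ (bv (R := R) j u)) = bv (R := S) j := by
  funext u
  unfold bv
  by_cases h : u = j
  · subst h; simp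
  · simp [Pi.single_eq_of_ne h]

theorem tf_nat (P : Fin 3 → Fin 3 → R) : tf a (mm φ P) = φ (tf a P) := by
  unfold tf mm
  rw [map_sum]
  refine sum_congr rfl fun e _ => ?_
  rw [map_mul, map_prod, map_intCast]

theorem det_nat (k l : Fin 3) (P : Fin 3 → Fin 3 → R) :
    (mt a k l (mm φ P)).det = φ (mt a k l P).det := by
  rw [RingHom.map_det]
  congr 1
  ext x y
  simp only [mt_apply, RingHom.mapMatrix_apply, Matrix.map_apply]
  rw [← tf_nat, mm_update, mm_update, mm_bv, mm_bv]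

theorem w_nat (P : Fin 3 → Fin 3 → R) (i : Fin 3) : w a (mm φ P) i = φ (w a P i) := by
  unfold w
  rw [← tf_nat, mm_update, mm_bv]

theorem sol_nat (P : Fin 3 → Fin 3 → R) : sol a (mm φ P) = mm φ (sol a P) := by
  unfold sol
  rw [mm_update]
  congr 1
  funext u
  have hu : u = 0 ∨ u = 1 ∨ u = 2 := by fin_cases u <;> simp
  rcases hu with rfl | rfl | rfl
  · simp only [cr0, w_nat, map_sub, map_mul, mm]
  · simp only [cr1, w_nat, map_sub, map_mul, mm]
  · simp only [cr2, w_nat, map_sub, map_mul, mm]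

end Nat

/-- the generic point -/
noncomputable def G : Fin 3 → Fin 3 → MvPolynomial (Fin 3 × Fin 3) ℂ :=
  fun i u => MvPolynomial.X (i, u)

/-- evaluation -/
noncomputable def ev (P : Fin 3 → Fin 3 → ℂ) : MvPolynomial (Fin 3 × Fin 3) ℂ →+* ℂ :=
  MvPolynomial.eval (fun x => P x.1 x.2)

theorem mm_G (P : Fin 3 → Fin 3 → ℂ) : mm (ev P) G = P := by
  funext i u; simp [mm, ev, G]

theorem cn3 (g1 g2 g3 : MvPolynomial (Fin 3 × Fin 3) ℂ) (h1 : ∃ P, ev P g1 ≠ 0)
    (h2 : ∃ P, ev P g2 ≠ 0) (h3 : ∃ P, ev P g3 ≠ 0) :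
    ∃ P, ev P g1 ≠ 0 ∧ ev P g2 ≠ 0 ∧ ev P g3 ≠ 0 := by
  have e1 : g1 ≠ 0 := by
    rintro rfl; obtain ⟨P, hP⟩ := h1; exact hP (map_zero _)
  have e2 : g2 ≠ 0 := by
    rintro rfl; obtain ⟨P, hP⟩ := h2; exact hP (map_zero _)
  have e3 : g3 ≠ 0 := by
    rintro rfl; obtain ⟨P, hP⟩ := h3; exact hP (map_zero _)
  by_contra hcon
  push Not at hcon
  apply mul_ne_zero (mul_ne_zero e1 e2) e3
  apply MvPolynomial.funext
  intro x
  have h := hcon (fun i u => x (i, u))
  change ev (fun i u => x (i, u)) (g1 * g2 * g3) = _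
  rw [map_zero, map_mul, map_mul]
  by_cases k1 : ev (fun i u => x (i, u)) g1 = 0
  · rw [k1]; ring
  · by_cases k2 : ev (fun i u => x (i, u)) g2 = 0
    · rw [k2]; ring
    · rw [h k1 k2]; ring

theorem ev_det (a : (Fin 3 → Fin 3) → ℤ) (k l : Fin 3) (P : Fin 3 → Fin 3 → ℂ) :
    ev P (mt a k l G).det = (mt a k l P).det := by rw [← det_nat, mm_G]

theorem ev_det' (a : (Fin 3 → Fin 3) → ℤ) (k l : Fin 3) (P : Fin 3 → Fin 3 → ℂ) :
    ev P (mt a k l (sol a G)).det = (mt a k l (sol a P)).det := by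
  rw [← det_nat, ← sol_nat, mm_G]

/-- a nonzero vector killed by a linear form in three variables -/
theorem ker3 (c : Fin 3 → ℂ) : ∃ r : Fin 3 → ℂ, r ≠ 0 ∧ r 0 * c 0 + r 1 * c 1 + r 2 * c 2 = 0 := by
  by_cases h : c 0 = 0 ∧ c 1 = 0
  · refine ⟨![1, 0, 0], ?_, ?_⟩
    · intro h0
      have := congrFun h0 0
      simp at this
    · simp [h.1]
  · refine ⟨![c 1, -c 0, 0], ?_, ?_⟩
    · intro h0
      have e0 := congrFun h0 0
      have e1 := congrFun h0 1
      simp at e0 e1
      exact h ⟨e1, e0⟩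
    · simp; ring

/-- a vector orthogonal to `x ≠ 0` is a cross product -/
theorem exists_cr (x p : Fin 3 → ℂ) (hx : x ≠ 0) (h : p 0 * x 0 + p 1 * x 1 + p 2 * x 2 = 0) :
    ∃ u, cr x u = p := by
  obtain ⟨c, hc⟩ : ∃ c : Fin 3 → ℂ, c 0 * x 0 + c 1 * x 1 + c 2 * x 2 = 1 := by
    by_cases h0 : x 0 = 0
    · by_cases h1 : x 1 = 0
      · have h2 : x 2 ≠ 0 := by
          intro h2
          apply hx
          funext i
          have hi : i = 0 ∨ i = 1 ∨ i = 2 := by fin_cases i <;> simp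
          rcases hi with rfl | rfl | rfl
          · exact h0
          · exact h1
          · exact h2
        exact ⟨![0, 0, (x 2)⁻¹], by simp [h2]⟩
      · exact ⟨![0, (x 1)⁻¹, 0], by simp [h1]⟩
    · exact ⟨![(x 0)⁻¹, 0, 0], by simp [h0]⟩
  refine ⟨cr p c, ?_⟩
  funext i
  have hi : i = 0 ∨ i = 1 ∨ i = 2 := by fin_cases i <;> simp
  rcases hi with rfl | rfl | rfl
  · rw [cr0, cr2, cr1]
    linear_combination p 0 * hc - c 0 * h
  · rw [cr1, cr0, cr2]
    linear_combination p 1 * hc - c 1 * h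
  · rw [cr2, cr1, cr0]
    linear_combination p 2 * hc - c 2 * h

theorem w_eq (a : (Fin 3 → Fin 3) → ℤ) (P : Fin 3 → Fin 3 → ℂ) :
    w a P = (mt a 0 2 P).mulVec (P 2) := by
  funext i
  have h := lin a 2 (update P 0 (bv i)) (P 2)
  have h2 : update (update P 0 (bv i)) 2 (P 2) = update P 0 (bv i) := by
    have : P 2 = update P 0 (bv i) 2 := by rw [update_of_ne (by decide)]
    conv_lhs => rw [this]
    rw [update_eq_self]
  rw [h2] at h
  simp only [w, Matrix.mulVec, dotProduct, Fin.sum_univ_three, mt_apply]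
  rw [h]
  ring

/-- the first factor is not identically zero -/
theorem fac (a : (Fin 3 → Fin 3) → ℤ) (hyp : ∀ k l, k ≠ l → ∃ P : Fin 3 → Fin 3 → ℂ,
    (mt a k l P).det ≠ 0) : ∃ P : Fin 3 → Fin 3 → ℂ, (mt a 1 2 (sol a P)).det ≠ 0 := by
  obtain ⟨P0, hP0⟩ := hyp 1 2 (by decide)
  obtain ⟨P1, hP1⟩ := hyp 0 2 (by decide)
  -- the point with arguments `P0 0`, `P1 1`
  obtain ⟨r, hr0, hr⟩ := ker3 (fun j => tf a (update (update P1 0 (P0 0)) 2 (bv j)))
  have hr' : tf a (update (update P1 0 (P0 0)) 2 r) = 0 := by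
    rw [lin]; exact hr
  set Q : Fin 3 → Fin 3 → ℂ := update P1 2 r with hQ
  have hQd : (mt a 0 2 Q).det ≠ 0 := by
    rw [hQ, mt_ind a (Or.inr rfl)]; exact hP1
  have hQ2 : Q 2 = r := by rw [hQ, update_self]
  have hw : w a Q ≠ 0 := by
    intro h0
    rw [w_eq, hQ2] at h0
    exact hr0 (Matrix.eq_zero_of_mulVec_eq_zero hQd h0)
  have hort : P0 0 0 * w a Q 0 + P0 0 1 * w a Q 1 + P0 0 2 * w a Q 2 = 0 := by
    have h1 := lin a 0 Q (P0 0)
    simp only [w]
    rw [← h1, hQ, update_comm (by decide)]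
    exact hr'
  obtain ⟨u, hu⟩ := exists_cr _ _ hw hort
  refine ⟨update Q 0 u, ?_⟩
  have hwu : w a (update Q 0 u) = w a Q := by
    funext i; simp only [w, update_idem]
  have hsol : sol a (update Q 0 u) = update Q 0 (P0 0) := by
    unfold sol
    rw [hwu, update_self, hu, update_idem]
  rw [hsol]
  have e : mt a 1 2 (update Q 0 (P0 0)) = mt a 1 2 P0 := by
    have e1 : mt a 1 2 P0 = mt a 1 2 (update (update P0 1 (Q 1)) 2 (Q 2)) := by
      rw [mt_ind a (Or.inr rfl), mt_ind a (Or.inl rfl)]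
    rw [e1]
    congr 1
    funext i
    have hi : i = 0 ∨ i = 1 ∨ i = 2 := by fin_cases i <;> simp
    rcases hi with rfl | rfl | rfl
    · rw [update_self, update_of_ne (by decide), update_of_ne (by decide)]
    · rw [update_of_ne (by decide), update_of_ne (by decide), update_self]
    · rw [update_of_ne (by decide), update_self]
  rw [e]
  exact hP0

theorem exists_pair : ∀ i : Fin 3, ∃ k l : Fin 3, k ≠ l ∧ i ≠ k ∧ i ≠ l := by decide

theorem tf_zero (a : (Fin 3 → Fin 3) → ℤ) (i : Fin 3) (P : Fin 3 → Fin 3 → ℂ) (h : P i = 0) :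
    tf a P = 0 := by
  have e : P = update P i 0 := by
    conv_rhs => rw [← h, update_eq_self]
  rw [e, lin]; simp

theorem pt : S_PT := by
  intro a hyp
  obtain ⟨P, h0, h1, h2⟩ := cn3 (mt a 1 2 (sol a G)).det (mt a 0 2 G).det (mt a 0 1 G).det
    (by obtain ⟨P, hP⟩ := fac a hyp; exact ⟨P, by rw [ev_det']; exact hP⟩)
    (by obtain ⟨P, hP⟩ := hyp 0 2 (by decide); exact ⟨P, by rw [ev_det]; exact hP⟩)
    (by obtain ⟨P, hP⟩ := hyp 0 1 (by decide); exact ⟨P, by rw [ev_det]; exact hP⟩)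
  rw [ev_det'] at h0
  rw [ev_det] at h1 h2
  have h1' : (mt a 0 2 (sol a P)).det ≠ 0 := by
    unfold sol; rw [mt_ind a (Or.inl rfl)]; exact h1
  have h2' : (mt a 0 1 (sol a P)).det ≠ 0 := by
    unfold sol; rw [mt_ind a (Or.inl rfl)]; exact h2
  have hU : InU a (sol a P) := by
    intro k l hkl
    fin_cases k <;> fin_cases l
    · exact absurd rfl hkl
    · exact h2'
    · exact h1'
    · change (Pool.Agent.W978.QN.mt a 1 0 (sol a P)).det ≠ 0
      rw [mt_symm a (k := 0) (l := 1) (by decide)]; exact h2'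
    · exact absurd rfl hkl
    · exact h0
    · change (Pool.Agent.W978.QN.mt a 2 0 (sol a P)).det ≠ 0
      rw [mt_symm a (k := 0) (l := 2) (by decide)]; exact h1'
    · change (Pool.Agent.W978.QN.mt a 2 1 (sol a P)).det ≠ 0
      rw [mt_symm a (k := 1) (l := 2) (by decide)]; exact h0
    · exact absurd rfl hkl
  refine ⟨sol a P, ?_, sol_zero a P, hU⟩
  intro i hi
  obtain ⟨k, l, hkl, hk, hl⟩ := exists_pair i
  apply hU k l hkl
  have e : mt a k l (sol a P) = 0 := by
    ext x y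
    simp only [mt_apply, Matrix.zero_apply]
    apply tf_zero a i
    rw [update_of_ne hl, update_of_ne hk, hi]
  rw [e, Matrix.det_zero]

end Pool.Agent.W240.QN.PT
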